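import Pool.Agent.R713.Kraw

/-!
# MP_4722b0_al: a Leonard triple without `q`-commutator relations

On `K³`, for every field `K` of characteristic zero, there is a Leonard triple `A, B, C` such that
for every scalar `q` the element `A B - q B A` lies outside the span of `1, A, B, C`.
-/

set_option autoImplicit false

namespace Pool.Agent.Results.MP_4722b0_al.NoCommonQ

open Pool.Agent.R713 Module

theorem result (K : Type*) [Field K] [CharZero K] :
    ∃ A B C : Module.End K (Fin 3 → K), LeonardTriple A B C ∧
      ∀ q : K, A * B - q • (B * A) ∉ Submodule.span K ({1, A, B, C} : Set (Module.End K (Fin 3 → K))) :=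
  ⟨_, _, _, Kraw.triple, Kraw.not_mem_span⟩

end Pool.Agent.Results.MP_4722b0_al.NoCommonQ
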